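import Pool.Agent.Helper7.SC.DP.Frames

set_option autoImplicit false

/-!
(M1) the law of the noise as a mixture of cells.
-/

namespace Pool.Agent.Helper99.SC.DP

open Finset Pool.Agent.Helper7.SC Pool.Agent.Helper7.SC.DP

/-- The noise with the active blocks `β` and the jumps `τ' - τ`. -/
def om {Q m : ℕ} (β : Finset (Fin m)) (τ τ' : Fin m → Fin Q) : Fin m → St Q := fun B =>
  if B ∈ β then some (τ' B, τ B) else none

lemma z_om (b q r : ℕ) {m : ℕ} (β : Finset (Fin m)) (τ τ' : Fin m → Fin (b ^ q)) :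
    z b q r (om β τ τ') = (zb b q r β τ' : ℤ) - zb b q r β τ := by
  unfold z zb
  push_cast
  rw [← sum_sub_distrib, ← sum_subset (subset_univ β)]
  · refine sum_congr rfl fun B hB => ?_
    simp only [om, if_pos hB, jump]
    ring
  · intro B _ hB
    simp only [om, if_neg hB, jump, zero_mul]

lemma pb_eq {m : ℕ} (p : ℝ) (β : Finset (Fin m)) :
    pb p β = ∏ B : Fin m, (if B ∈ β then p else 1 - p) := by
  unfold pb
  rw [prod_ite, prod_const, prod_const]
  congr 2
  · congr 1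
    ext B
    simp
  · have h1 : (univ.filter fun B : Fin m => B ∉ β) = βᶜ := by
      ext B
      simp
    rw [h1, card_compl, Fintype.card_fin]

/-- The active blocks. -/
def act {Q m : ℕ} (ω : Fin m → St Q) : Finset (Fin m) := univ.filter fun B => (ω B).isSome

/-- The values allowed for `τ`. -/
def A1 {Q m : ℕ} (ω : Fin m → St Q) (B : Fin m) : Finset (Fin Q) :=
  match ω B with
  | none => univ
  | some t => {t.2}

/-- The values allowed for `τ'`. -/
def A2 {Q m : ℕ} (ω : Fin m → St Q) (B : Fin m) : Finset (Fin Q) :=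
  match ω B with
  | none => univ
  | some t => {t.1}

lemma om_eq_iff {Q m : ℕ} (β : Finset (Fin m)) (τ τ' : Fin m → Fin Q) (ω : Fin m → St Q) :
    om β τ τ' = ω ↔ β = act ω ∧ τ ∈ Fintype.piFinset (A1 ω) ∧ τ' ∈ Fintype.piFinset (A2 ω) := by
  simp only [Fintype.mem_piFinset]
  constructor
  · rintro rfl
    refine ⟨?_, fun B => ?_, fun B => ?_⟩
    · ext B
      simp only [act, om, mem_filter, mem_univ, true_and]
      by_cases h : B ∈ β <;> simp [h]
    · by_cases h : B ∈ β <;> simp [A1, om, h]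
    · by_cases h : B ∈ β <;> simp [A2, om, h]
  · rintro ⟨rfl, h1, h2⟩
    funext B
    have e1 := h1 B
    have e2 := h2 B
    simp only [om, act, mem_filter, mem_univ, true_and]
    rcases hω : ω B with _ | t
    · simp
    · simp only [A1, A2, hω, mem_singleton] at e1 e2
      simp [e1, e2]

lemma weight {Q m : ℕ} (hQ : 0 < Q) (p : ℝ) (ω : Fin m → St Q) :
    pb p (act ω) / (Q : ℝ) ^ (2 * m) * ((#(Fintype.piFinset (A1 ω)) : ℝ) *
      #(Fintype.piFinset (A2 ω))) = P p ω := by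
  have hQ' : (Q : ℝ) ≠ 0 := by exact_mod_cast hQ.ne'
  have h0 : ((Q : ℝ) ^ (2 * m))⁻¹ = ∏ _B : Fin m, ((Q : ℝ) ^ 2)⁻¹ := by
    rw [prod_const, card_univ, Fintype.card_fin, pow_mul, inv_pow]
  rw [pb_eq, Fintype.card_piFinset, Fintype.card_piFinset, Nat.cast_prod, Nat.cast_prod,
    div_eq_mul_inv, h0, ← prod_mul_distrib, ← prod_mul_distrib, ← prod_mul_distrib]
  unfold P
  refine prod_congr rfl fun B _ => ?_
  simp only [act, mem_filter, mem_univ, true_and, A1, A2]
  rcases hω : ω B with _ | t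
  · simp only [wt, Option.isSome_none, Bool.false_eq_true, if_false, card_univ, Fintype.card_fin]
    field_simp
  · simp only [wt, Option.isSome_some, if_true, card_singleton, Nat.cast_one, mul_one]
    field_simp

/-- The law of the noise as a mixture. -/
lemma mixture {Q m : ℕ} (hQ : 0 < Q) (p : ℝ) (F : (Fin m → St Q) → ℝ) :
    ∑ ω, P p ω * F ω = ∑ β : Finset (Fin m), ∑ τ : Fin m → Fin Q, ∑ τ' : Fin m → Fin Q,
      pb p β / (Q : ℝ) ^ (2 * m) * F (om β τ τ') := by
  have h1 : ∀ (β : Finset (Fin m)) (τ τ' : Fin m → Fin Q),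
      pb p β / (Q : ℝ) ^ (2 * m) * F (om β τ τ') =
        ∑ ω : Fin m → St Q, if om β τ τ' = ω then pb p β / (Q : ℝ) ^ (2 * m) * F ω else 0 := by
    intro β τ τ'
    rw [sum_ite_eq univ (om β τ τ')]
    simp
  simp only [h1]
  have h2 : ∀ (β : Finset (Fin m)), ∑ τ : Fin m → Fin Q, ∑ τ' : Fin m → Fin Q,
      ∑ ω : Fin m → St Q, (if om β τ τ' = ω then pb p β / (Q : ℝ) ^ (2 * m) * F ω else 0) =
      ∑ ω : Fin m → St Q, if β = act ω then pb p β / (Q : ℝ) ^ (2 * m) *
        ((#(Fintype.piFinset (A1 ω)) : ℝ) * #(Fintype.piFinset (A2 ω))) * F ω else 0 := by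
    intro β
    have e1 : ∀ τ : Fin m → Fin Q, ∑ τ' : Fin m → Fin Q, ∑ ω : Fin m → St Q,
        (if om β τ τ' = ω then pb p β / (Q : ℝ) ^ (2 * m) * F ω else 0) =
        ∑ ω : Fin m → St Q, ∑ τ' : Fin m → Fin Q,
        (if om β τ τ' = ω then pb p β / (Q : ℝ) ^ (2 * m) * F ω else 0) := fun τ => sum_comm
    simp only [e1]
    rw [sum_comm]
    refine sum_congr rfl fun ω _ => ?_
    simp only [om_eq_iff]
    by_cases hβ : β = act ω
    · simp only [hβ, true_and, if_true]
      have e2 : ∀ τ τ' : Fin m → Fin Q, (if τ ∈ Fintype.piFinset (A1 ω) ∧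
          τ' ∈ Fintype.piFinset (A2 ω) then pb p (act ω) / (Q : ℝ) ^ (2 * m) * F ω else 0) =
          (if τ ∈ Fintype.piFinset (A1 ω) then (if τ' ∈ Fintype.piFinset (A2 ω) then
            pb p (act ω) / (Q : ℝ) ^ (2 * m) * F ω else 0) else 0) := by
        intro τ τ'
        by_cases h3 : τ ∈ Fintype.piFinset (A1 ω) <;>
          by_cases h4 : τ' ∈ Fintype.piFinset (A2 ω) <;> simp [h3, h4]
      simp only [e2]
      have e3 : ∀ τ : Fin m → Fin Q, ∑ τ' : Fin m → Fin Q,
          (if τ ∈ Fintype.piFinset (A1 ω) then (if τ' ∈ Fintype.piFinset (A2 ω) then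
            pb p (act ω) / (Q : ℝ) ^ (2 * m) * F ω else 0) else 0) =
          if τ ∈ Fintype.piFinset (A1 ω) then (#(Fintype.piFinset (A2 ω)) : ℝ) *
            (pb p (act ω) / (Q : ℝ) ^ (2 * m) * F ω) else 0 := by
        intro τ
        split_ifs
        · rw [sum_ite_mem, univ_inter, sum_const, nsmul_eq_mul]
        · simp
      simp only [e3]
      rw [sum_ite_mem, univ_inter, sum_const, nsmul_eq_mul]
      ring
    · simp [hβ]
  simp only [h2]
  rw [sum_comm]
  refine sum_congr rfl fun ω _ => ?_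
  rw [sum_ite_eq' univ (act ω)]
  simp only [mem_univ, if_true]
  rw [weight hQ]

theorem stM1 : StM1 := by
  intro b q r m K p hb hp0 hp1 D Φ hΦ G
  have hQ : 0 < b ^ q := by positivity
  set Ψ : (Fin m → St (b ^ q)) → ℝ := fun ω => ∑ n ∈ D, ∑ n' ∈ D,
    if ((z b q r ω : ℤ) : ZMod (b ^ K)) = (n' : ZMod (b ^ K)) - n then Φ n n' else 0 with hΨ
  have h1 : ∑ n ∈ D, ∑ n' ∈ D, law b q r m K p ((n' : ZMod (b ^ K)) - n) * Φ n n' =
      ∑ ω, P p ω * Ψ ω := by
    unfold law
    simp only [hΨ, mul_sum, sum_mul]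
    have e1 : ∀ n : ℕ, ∑ n' ∈ D, ∑ ω : Fin m → St (b ^ q),
        (if ((z b q r ω : ℤ) : ZMod (b ^ K)) = (n' : ZMod (b ^ K)) - n then P p ω else 0) *
          Φ n n' = ∑ ω : Fin m → St (b ^ q), ∑ n' ∈ D,
        (if ((z b q r ω : ℤ) : ZMod (b ^ K)) = (n' : ZMod (b ^ K)) - n then P p ω else 0) *
          Φ n n' := fun n => sum_comm
    simp only [e1]
    rw [sum_comm]
    refine sum_congr rfl fun ω _ => sum_congr rfl fun n _ => sum_congr rfl fun n' _ => ?_
    split_ifs <;> simp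
  have h2 := mixture hQ p Ψ
  rw [h1, h2]
  have hc : (((b ^ q : ℕ) : ℝ)) = (b : ℝ) ^ q := by push_cast; rfl
  refine sum_le_sum fun β _ => ?_
  rw [hc]
  have hpb : 0 ≤ pb p β / ((b : ℝ) ^ q) ^ (2 * m) := by
    unfold pb
    have : 0 ≤ 1 - p := by linarith
    positivity
  have h3 : ∑ k ∈ G β, ∑ τ : Fin m → Fin (b ^ q), ∑ τ' : Fin m → Fin (b ^ q),
      (if k + zb b q r β τ ∈ D ∧ k + zb b q r β τ' ∈ D then
        Φ (k + zb b q r β τ) (k + zb b q r β τ') else 0) ≤
      ∑ τ : Fin m → Fin (b ^ q), ∑ τ' : Fin m → Fin (b ^ q), Ψ (om β τ τ') := by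
    rw [sum_comm]
    refine sum_le_sum fun τ _ => ?_
    rw [sum_comm]
    refine sum_le_sum fun τ' _ => ?_
    rw [← sum_filter]
    have e1 : ∑ k ∈ (G β).filter (fun k => k + zb b q r β τ ∈ D ∧ k + zb b q r β τ' ∈ D),
        Φ (k + zb b q r β τ) (k + zb b q r β τ') =
        ∑ x ∈ ((G β).filter (fun k => k + zb b q r β τ ∈ D ∧ k + zb b q r β τ' ∈ D)).image
          (fun k => (k + zb b q r β τ, k + zb b q r β τ')), Φ x.1 x.2 := by
      rw [sum_image]
      intro i _ j _ hij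
      simp only [Prod.mk.injEq] at hij
      omega
    have e2 : Ψ (om β τ τ') = ∑ x ∈ (D ×ˢ D).filter (fun x =>
        ((z b q r (om β τ τ') : ℤ) : ZMod (b ^ K)) = (x.2 : ZMod (b ^ K)) - x.1), Φ x.1 x.2 := by
      rw [sum_filter, sum_product]
    rw [e1, e2]
    apply sum_le_sum_of_subset_of_nonneg
    · intro x hx
      rw [mem_image] at hx
      obtain ⟨k, hk, rfl⟩ := hx
      rw [mem_filter] at hk
      rw [mem_filter, mem_product]
      refine ⟨hk.2, ?_⟩
      rw [z_om]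
      push_cast
      ring
    · intro x _ _
      exact hΦ _ _
  calc pb p β / ((b : ℝ) ^ q) ^ (2 * m) * ∑ k ∈ G β, ∑ τ : Fin m → Fin (b ^ q),
        ∑ τ' : Fin m → Fin (b ^ q), (if k + zb b q r β τ ∈ D ∧ k + zb b q r β τ' ∈ D then
        Φ (k + zb b q r β τ) (k + zb b q r β τ') else 0)
      ≤ pb p β / ((b : ℝ) ^ q) ^ (2 * m) * ∑ τ : Fin m → Fin (b ^ q),
        ∑ τ' : Fin m → Fin (b ^ q), Ψ (om β τ τ') := mul_le_mul_of_nonneg_left h3 hpb
    _ = _ := by
        simp only [mul_sum]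

end Pool.Agent.Helper99.SC.DP
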